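import Pool.Agent.Q215.SAW.MeanSer
import Pool.Agent.Q215.SAW.Pos

/-!
Self-avoiding walks on the honeycomb lattice (brick-wall coordinates, same description as in the
frozen statement): both exponents (Q1 and Q2) exist, with given values, as soon as they do along
a sequence of lengths with gaps `o(√(n log n))`, for instance along the perfect squares; the same
for all moments of the end-to-end distance.
-/

set_option autoImplicit false

namespace Pool.Agent.Results.MP_b440f6_pr.PerfectSquares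

open Filter Topology

/-- Adjacency in the honeycomb lattice (brick-wall model), as in the frozen statement. -/
def Nbr (p q : ℤ × ℤ) : Prop :=
  (p.2 = q.2 ∧ (p.1 - q.1 = 1 ∨ q.1 - p.1 = 1)) ∨
    (p.1 = q.1 ∧ ((q.2 = p.2 + 1 ∧ Even (p.1 + p.2)) ∨ (p.2 = q.2 + 1 ∧ Even (q.1 + q.2))))

/-- The set of `n`-step self-avoiding walks from the origin. -/
def walks (n : ℕ) : Set (Fin (n + 1) → ℤ × ℤ) :=
  {ω | ω 0 = (0, 0) ∧ Function.Injective ω ∧ ∀ i : Fin n, Nbr (ω i.castSucc) (ω i.succ)}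

/-- The vertex of the regular honeycomb lattice with edge length `1` in the plane, the origin at `0`,
which has the brick-wall coordinates `p`. -/
noncomputable def pos (p : ℤ × ℤ) : ℂ :=
  ⟨√3 / 2 * p.1, (3 * p.2 - ((p.1 + p.2) % 2 : ℤ)) / 2⟩

/-- the number of `n`-step walks -/
noncomputable def c (n : ℕ) : ℝ := ((walks n).ncard : ℝ)

/-- The mean of the `q`-th power of the distance of the end point from the origin; `M 2 n` is the
mean-square displacement `D_n`. -/
noncomputable def M (q : ℝ) (n : ℕ) : ℝ :=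
  (∑ᶠ ω ∈ walks n, ‖pos (ω (Fin.last n))‖ ^ q) / c n

/-- the connective constant -/
noncomputable def mu : ℝ := √(2 + √2)

/-- The lengths `t 0, t 1, …` tend to infinity and `t (j+1) - t j = o(√(t j log (t j)))`. -/
def IsSparse (t : ℕ → ℕ) : Prop :=
  Tendsto t atTop atTop ∧
    Tendsto (fun j => ((t (j + 1) : ℝ) - t j) / √(t j * Real.log (t j))) atTop (𝓝 0)

/-- `c_n = n^{g+o(1)} μ^n` along the lengths `t` -/
def GrowthAlong (t : ℕ → ℕ) (g : ℝ) : Prop :=
  Tendsto (fun j => Real.log (c (t j) / mu ^ (t j)) / Real.log (t j)) atTop (𝓝 g)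

/-- `M_q(n) = n^{h+o(1)}` along the lengths `t` -/
def SizeAlong (q : ℝ) (t : ℕ → ℕ) (h : ℝ) : Prop :=
  Tendsto (fun j => Real.log (M q (t j)) / Real.log (t j)) atTop (𝓝 h)

theorem nbr_iff (p q : ℤ × ℤ) : Nbr p q ↔ TH966.AK.Hex.A p q := by
  rw [TH966.AK.Hex.A_iff]
  unfold Nbr
  rw [Int.even_iff, Int.even_iff]
  omega

theorem walks_eq (n : ℕ) : walks n = TH966.AK.wks TH966.AK.Hex.A n := by
  ext f
  unfold walks TH966.AK.wks
  simp only [Set.mem_ofPred_eq]
  constructor
  · rintro ⟨h1, h2, h3⟩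
    exact ⟨h1, h2, fun i => (nbr_iff _ _).1 (h3 i)⟩
  · rintro ⟨h1, h2, h3⟩
    exact ⟨h1, h2, fun i => (nbr_iff _ _).2 (h3 i)⟩

theorem c_eq (n : ℕ) : c n = TH966.AK.WF TH966.AK.Hex.A (fun _ => 1) n := by
  unfold c
  rw [walks_eq, TH966.AK.card_wks TH966.AK.Hex.rule, TH966.AK.WF_one]

theorem M_eq (q : ℝ) (n : ℕ) :
    M q n = Q215.SAW.MF TH966.AK.Hex.A (fun x => ‖Q215.SAW.hexPos x‖ ^ q) n := by
  unfold M Q215.SAW.MF c
  rw [walks_eq, ← TH966.AK.sum_wks TH966.AK.Hex.rule, TH966.AK.card_wks TH966.AK.Hex.rule]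
  rfl

/-- The perfect squares are sparse in this sense. -/
theorem squares : IsSparse (fun j => (j + 1) ^ 2) := by
  refine ⟨?_, Q215.SAW.Cvx.sparse_squares⟩
  refine tendsto_atTop_mono (fun j => ?_) tendsto_id
  simp only [id]
  nlinarith

/-- **Theorem** (honeycomb lattice).

(1) The perfect squares are sparse.

(2) For every sparse sequence `t`, all real `g`, `h` and every `q ≥ 0`: if `c_n = n^{g+o(1)} μ^n` and
`M_q(n) = n^{h+o(1)}` along `t`, then both hold along all `n`.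

(3) If `c_n ≤ n^b μ^n` for all large `n` of some sparse sequence, then for every `q ≥ 0` there is `K`
with `|M_q(n+2) / M_q(n) - 1| ≤ K √(log n / n)` for all `n ≥ 2`, and for every sparse sequence `u`:
if `M_q(n) = n^{h+o(1)}` along `u`, then it holds along all `n`.

(4) Without any assumption, `M_q(n) = n^{h+o(1)}` along all `n` if it holds along a sequence of
lengths tending to infinity with gaps `o(√n)`. -/
theorem result : IsSparse (fun j => (j + 1) ^ 2) ∧
    (∀ (t : ℕ → ℕ) (g h q : ℝ), 0 ≤ q → IsSparse t → GrowthAlong t g → SizeAlong q t h →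
      GrowthAlong id g ∧ SizeAlong q id h) ∧
    (∀ (t : ℕ → ℕ) (b : ℝ), IsSparse t →
      (∀ᶠ j in atTop, Real.log (c (t j) / mu ^ (t j)) ≤ b * Real.log (t j)) → ∀ q : ℝ, 0 ≤ q →
      (∃ K : ℝ, ∀ n : ℕ, 2 ≤ n → |M q (n + 2) / M q n - 1| ≤ K * √(Real.log n / n)) ∧
      ∀ (u : ℕ → ℕ) (h : ℝ), IsSparse u → SizeAlong q u h → SizeAlong q id h) ∧
    (∀ (t : ℕ → ℕ) (q h : ℝ), 0 ≤ q → Tendsto t atTop atTop →
      Tendsto (fun j => ((t (j + 1) : ℝ) - t j) / √(t j)) atTop (𝓝 0) →
      SizeAlong q t h → SizeAlong q id h) := by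
  obtain ⟨K, G⟩ := Q215.SAW.hex_growth'
  rw [Q215.SAW.hex_mu'] at G
  have hs : TH966.AK.Hex.rule.s = 2 := rfl
  have hM : ∀ q, M q = Q215.SAW.MF TH966.AK.Hex.A (fun x => ‖Q215.SAW.hexPos x‖ ^ q) :=
    fun q => funext (M_eq q)
  have hlog : ∀ᶠ n : ℕ in atTop, 0 ≤ Real.log (n : ℝ) :=
    Q215.SAW.Cvx.log_tend.eventually_ge_atTop 0
  refine ⟨squares, ?_, ?_, ?_⟩
  · rintro t g h q hq ⟨ht, hsp⟩ hg hh
    unfold GrowthAlong SizeAlong mu at *
    simp only [c_eq, M_eq] at *
    exact Q215.SAW.joint G (Q215.SAW.wok TH966.AK.Hex.rule Q215.SAW.hexPos_ok hq) ht hsp hg hh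
  · rintro t b ⟨ht, hsp⟩ hb q hq
    have hW := Q215.SAW.wok TH966.AK.Hex.rule Q215.SAW.hexPos_ok hq
    unfold mu at hb
    simp only [c_eq] at hb
    have hB : ∀ᶠ n : ℕ in atTop,
        Real.log (TH966.AK.WF TH966.AK.Hex.A (fun _ => 1) n / √(2 + √2) ^ n) ≤
          (b + 1) * Real.log n := by
      refine (Q215.SAW.ser G (Q215.SAW.fn_oneM _ 0)).up ht hsp ?_ one_pos
      intro ε hε
      filter_upwards [hb, ht.eventually hlog] with j h1 h2
      nlinarith
    refine ⟨?_, ?_⟩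
    · obtain ⟨R, hR, h1⟩ := Q215.SAW.MF_ratio_poly G hW.fn hB
      refine TH966.AK.all_of_eventually (F := fun n => |M q (n + 2) / M q n - 1|)
        (g := fun n => √(Real.log n / n)) ?_ (R := R) ?_
      · intro n hn
        have h3 : (1 : ℝ) < n := by exact_mod_cast hn
        have := Real.log_pos h3
        positivity
      · rw [hM]
        exact h1
    · rintro u h ⟨hu, husp⟩ hh
      unfold SizeAlong at *
      rw [hM] at *
      exact (Q215.SAW.slp_poly G hW hB).lim hu husp hh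
  · intro t q h hq ht hgap hh
    have hW := Q215.SAW.wok TH966.AK.Hex.rule Q215.SAW.hexPos_ok hq
    unfold SizeAlong at *
    rw [hM] at *
    exact (Q215.SAW.slp_uncond G hW).lim ht hgap hh

end Pool.Agent.Results.MP_b440f6_pr.PerfectSquares
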