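import Pool.Agent.Q215.SAW.Glob
import Pool.Agent.Q215.SAW.Lat
import Pool.Agent.TH966.AK.HexEnd

/-!
Self-avoiding walks on the honeycomb lattice (brick-wall coordinates, same description as in the
frozen statement): the ratios `c_{n+2}(E) / c_n(E)` of the numbers of walks which end in a set `E`
of vertices are close to `μ² = 2 + √2`, and the ratios `c_{n+4}(D, E) / c_n(D, E)` of the numbers of
walks which moreover stay in a domain `D` are close to `μ⁴`, uniformly in `D` and `E`.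
-/

set_option autoImplicit false

namespace Pool.Agent.Results.MP_b440f6_pr.RatioInDomains

open Filter Topology

/-- Adjacency in the honeycomb lattice (brick-wall model), as in the frozen statement. -/
def Nbr (p q : ℤ × ℤ) : Prop :=
  (p.2 = q.2 ∧ (p.1 - q.1 = 1 ∨ q.1 - p.1 = 1)) ∨
    (p.1 = q.1 ∧ ((q.2 = p.2 + 1 ∧ Even (p.1 + p.2)) ∨ (p.2 = q.2 + 1 ∧ Even (q.1 + q.2))))

/-- The set of `n`-step self-avoiding walks from the origin. -/
def walks (n : ℕ) : Set (Fin (n + 1) → ℤ × ℤ) :=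
  {ω | ω 0 = (0, 0) ∧ Function.Injective ω ∧ ∀ i : Fin n, Nbr (ω i.castSucc) (ω i.succ)}

/-- the number of the `n`-step walks which stay in `D` and end in `E` -/
noncomputable def c (D E : Set (ℤ × ℤ)) (n : ℕ) : ℝ :=
  ({ω ∈ walks n | (∀ i, ω i ∈ D) ∧ ω (Fin.last n) ∈ E}.ncard : ℝ)

/-- the probability that the uniform `n`-step self-avoiding walk stays in `D` and ends in `E` -/
noncomputable def prob (D E : Set (ℤ × ℤ)) (n : ℕ) : ℝ := c D E n / ((walks n).ncard : ℝ)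

/-- the connective constant -/
noncomputable def mu : ℝ := √(2 + √2)

open Q219.SAW TH966.AK Q215.SAW

theorem nbr_iff (p q : ℤ × ℤ) : Nbr p q ↔ Hex.A p q := by
  rw [Hex.A_iff]
  unfold Nbr
  rw [Int.even_iff, Int.even_iff]
  omega

theorem mem_walks {n : ℕ} (f : Fin (n + 1) → ℤ × ℤ) : f ∈ walks n ↔
    (f 0 = 0 ∧ Function.Injective f ∧ ∀ i : Fin n, Hex.A (f i.castSucc) (f i.succ)) := by
  unfold walks
  rw [Set.mem_ofPred_eq]
  simp only [nbr_iff]
  exact Iff.rfl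

theorem card_eq (n : ℕ) : ((walks n).ncard : ℝ) = (Kw Hex.A n).card := by
  rw [count_eq Hex.rule]
  congr 2
  ext f
  exact mem_walks f

theorem c_eq (D E : Set (ℤ × ℤ)) (n : ℕ) : c D E n = cD Hex.A D (ind E) n := by
  rw [cD_eq (Z := Hex.rule)]
  unfold c
  congr 2
  ext f
  rw [Set.mem_ofPred_eq, Set.mem_ofPred_eq, mem_walks]

theorem c_univ (E : Set (ℤ × ℤ)) (n : ℕ) : c Set.univ E n = cG Hex.A (ind E) n := by
  classical
  rw [c_eq]
  unfold cD cG KD
  congr 1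
  rw [Finset.filter_eq_self]
  intro w _ x _
  exact Set.mem_univ x

theorem to_abs {x m R y : ℝ} (hm : 1 ≤ m) (hR : 0 ≤ R * y) (h : |x / m - 1| ≤ R * y) :
    |x - m| ≤ m * R * y := by
  have e : x - m = m * (x / m - 1) := by
    field_simp
  rw [e, abs_mul, abs_of_pos (show 0 < m by linarith), mul_assoc]
  exact mul_le_mul_of_nonneg_left h (by linarith)

/-- **Theorem** (honeycomb lattice, `μ = √(2+√2)`). There are `R, δ > 0` such that for all `n ≥ 2`:

(1) for every set `E` of vertices such that the uniform `n`-step self-avoiding walk ends in `E` with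
probability `p ≥ exp (- δ n)`, `|c_{n+2}(E) / c_n(E) - μ²|` and `|P_{n+2}(E) / P_n(E) - 1|` are at
most `R ((log² n + log (1/p)) / n)^(1/2)`;

(2) for all sets `D` and `E` of vertices such that this walk stays in `D` and ends in `E` with
probability `p ≥ exp (- δ n)`, `|c_{n+4}(D, E) / c_n(D, E) - μ⁴|` and
`|P_{n+4}(D, E) / P_n(D, E) - 1|` are at most `R ((log² n + log (1/p)) / n)^(1/2)`. -/
theorem result : ∃ R δ : ℝ, 0 < R ∧ 0 < δ ∧ ∀ n : ℕ, 2 ≤ n →
    (∀ E : Set (ℤ × ℤ), Real.exp (-(δ * n)) ≤ prob Set.univ E n →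
      |c Set.univ E (n + 2) / c Set.univ E n - mu ^ 2| ≤
        R * √((Real.log n ^ 2 + Real.log (1 / prob Set.univ E n)) / n) ∧
      |prob Set.univ E (n + 2) / prob Set.univ E n - 1| ≤
        R * √((Real.log n ^ 2 + Real.log (1 / prob Set.univ E n)) / n)) ∧
    ∀ D E : Set (ℤ × ℤ), Real.exp (-(δ * n)) ≤ prob D E n →
      |c D E (n + 4) / c D E n - mu ^ 4| ≤
        R * √((Real.log n ^ 2 + Real.log (1 / prob D E n)) / n) ∧
      |prob D E (n + 4) / prob D E n - 1| ≤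
        R * √((Real.log n ^ 2 + Real.log (1 / prob D E n)) / n) := by
  obtain ⟨K, G⟩ := hex_growth'
  obtain ⟨K4, G4⟩ := hex4_growth
  rw [hex_mu'] at G G4
  have hμ : 1 ≤ mu := G.hμ
  obtain ⟨R, δ, hR, hδ, h⟩ := ratio_allG G
  obtain ⟨R4, δ4, hR4, hδ4, h4⟩ := ratio_all G4 Hex4.shr
  have hp2 : 1 ≤ mu ^ 2 := one_le_pow₀ hμ
  have hp4 : 1 ≤ mu ^ 4 := one_le_pow₀ hμ
  have hpr : ∀ D E n, prob D E n = cD Hex.A D (ind E) n / (Kw Hex.A n).card := by
    intro D E n
    unfold prob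
    rw [c_eq, card_eq]
  have hprG : ∀ E n, prob Set.univ E n = cG Hex.A (ind E) n / (Kw Hex.A n).card := by
    intro E n
    unfold prob
    rw [c_univ, card_eq]
  have habs : ∀ y : ℝ, 0 ≤ y → R * y ≤ (mu ^ 4 * (R + R4)) * y ∧
      mu ^ 2 * R * y ≤ (mu ^ 4 * (R + R4)) * y ∧ R4 * y ≤ (mu ^ 4 * (R + R4)) * y ∧
      mu ^ 4 * R4 * y ≤ (mu ^ 4 * (R + R4)) * y := by
    intro y hy
    have h24 : mu ^ 2 ≤ mu ^ 4 := pow_le_pow_right₀ hμ (by norm_num)
    have k1 : 0 ≤ mu ^ 4 * R4 := by positivity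
    have k2 : 0 ≤ mu ^ 4 * R := by positivity
    have k3 : R ≤ mu ^ 4 * R := le_mul_of_one_le_left hR.le hp4
    have k4 : R4 ≤ mu ^ 4 * R4 := le_mul_of_one_le_left hR4.le hp4
    have k5 : mu ^ 2 * R ≤ mu ^ 4 * R := mul_le_mul_of_nonneg_right h24 hR.le
    refine ⟨mul_le_mul_of_nonneg_right ?_ hy, mul_le_mul_of_nonneg_right ?_ hy,
      mul_le_mul_of_nonneg_right ?_ hy, mul_le_mul_of_nonneg_right ?_ hy⟩ <;>
    · rw [mul_add]
      linarith
  refine ⟨mu ^ 4 * (R + R4), min δ δ4, by positivity, lt_min hδ hδ4, fun n hn => ⟨?_, ?_⟩⟩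
  · intro E hp
    have hn0 : (0 : ℝ) ≤ n := Nat.cast_nonneg n
    obtain ⟨h1, h2⟩ := h (ind E) (wtG_ind _) n hn (by
      rw [← hprG]
      refine le_trans (Real.exp_le_exp.2 ?_) hp
      have := mul_le_mul_of_nonneg_right (min_le_left δ δ4) hn0
      linarith)
    have hs : Hex.rule.s = 2 := rfl
    rw [hs, ← hprG, ← c_univ, ← c_univ] at h1
    rw [hs, ← hprG, ← hprG] at h2
    have hy := Real.sqrt_nonneg ((Real.log n ^ 2 + Real.log (1 / prob Set.univ E n)) / n)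
    obtain ⟨k1, k2, -, -⟩ := habs _ hy
    exact ⟨(to_abs hp2 (by positivity) h1).trans k2, h2.trans k1⟩
  · intro D E hp
    have hn0 : (0 : ℝ) ≤ n := Nat.cast_nonneg n
    obtain ⟨h1, h2⟩ := h4 D (ind E) (wtD_ind _ _) n hn (by
      rw [← hpr]
      refine le_trans (Real.exp_le_exp.2 ?_) hp
      have := mul_le_mul_of_nonneg_right (min_le_right δ δ4) hn0
      linarith)
    have hs : Hex4.rule.s = 4 := rfl
    rw [hs, ← hpr, ← c_eq, ← c_eq] at h1
    rw [hs, ← hpr, ← hpr] at h2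
    have hy := Real.sqrt_nonneg ((Real.log n ^ 2 + Real.log (1 / prob D E n)) / n)
    obtain ⟨-, -, k1, k2⟩ := habs _ hy
    exact ⟨(to_abs hp4 (by positivity) h1).trans k2, h2.trans k1⟩

end Pool.Agent.Results.MP_b440f6_pr.RatioInDomains
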