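import Pool.Agent.Q215.SAW.Sub

/-!
Self-avoiding walk on the honeycomb lattice (brick-wall coordinates, same description as in the
frozen statement): the laws of the stretches `ω(i), …, ω(i+m)` of the `n`-step walk and the moments
of the displacement `|ω(i+m) - ω(i)|` depend slowly on `i`, `m` and `n - i - m`.
-/

set_option autoImplicit false

namespace Pool.Agent.Results.MP_b440f6_pr.StretchRegularity

/-- Adjacency in the honeycomb lattice (brick-wall model), as in the frozen statement. -/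
def Nbr (p q : ℤ × ℤ) : Prop :=
  (p.2 = q.2 ∧ (p.1 - q.1 = 1 ∨ q.1 - p.1 = 1)) ∨
    (p.1 = q.1 ∧ ((q.2 = p.2 + 1 ∧ Even (p.1 + p.2)) ∨ (p.2 = q.2 + 1 ∧ Even (q.1 + q.2))))

/-- The set of `n`-step self-avoiding walks from the origin. -/
def walks (n : ℕ) : Set (Fin (n + 1) → ℤ × ℤ) :=
  {ω | ω 0 = (0, 0) ∧ Function.Injective ω ∧ ∀ i : Fin n, Nbr (ω i.castSucc) (ω i.succ)}

/-- The vertex of the regular honeycomb lattice with edge length `1` in the plane, the origin at `0`,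
which has the brick-wall coordinates `p`. -/
noncomputable def pos (p : ℤ × ℤ) : ℂ :=
  ⟨√3 / 2 * p.1, (3 * p.2 - ((p.1 + p.2) % 2 : ℤ)) / 2⟩

/-- the mean of `F` under the uniform law on the `n`-step self-avoiding walks -/
noncomputable def mean (n : ℕ) (F : (Fin (n + 1) → ℤ × ℤ) → ℝ) : ℝ :=
  (∑ᶠ ω ∈ walks n, F ω) / ((walks n).ncard : ℝ)

/-- the site at time `t` (used for `t ≤ n`) -/
def site {n : ℕ} (ω : Fin (n + 1) → ℤ × ℤ) (t : ℕ) : ℤ × ℤ := ω (Fin.ofNat (n + 1) t)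

/-- the stretch of the walk between the times `i` and `i + m` (the sites themselves, not only their
differences) -/
def stretch (i m : ℕ) {n : ℕ} (ω : Fin (n + 1) → ℤ × ℤ) : Fin (m + 1) → ℤ × ℤ :=
  fun k => site ω (i + k)

/-- the moment of order `q` of the distance of the sites at the times `i` and `i + m` -/
noncomputable def mom (q : ℝ) (n i m : ℕ) : ℝ :=
  mean n (fun ω => ‖pos (site ω (i + m)) - pos (site ω i)‖ ^ q)

theorem nbr_iff (p q : ℤ × ℤ) : Nbr p q ↔ TH966.AK.Hex.A p q := by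
  rw [TH966.AK.Hex.A_iff]
  unfold Nbr
  rw [Int.even_iff, Int.even_iff]
  omega

theorem walks_eq (n : ℕ) : walks n = Q219.SAW.FW TH966.AK.Hex.A n := by
  ext f
  unfold walks Q219.SAW.FW
  simp only [Set.mem_ofPred_eq]
  constructor
  · rintro ⟨h1, h2, h3⟩
    exact ⟨h1, h2, fun i => (nbr_iff _ _).1 (h3 i)⟩
  · rintro ⟨h1, h2, h3⟩
    exact ⟨h1, h2, fun i => (nbr_iff _ _).2 (h3 i)⟩

theorem mean_eq (n : ℕ) (F : (Fin (n + 1) → ℤ × ℤ) → ℝ) :
    mean n F = Q215.SAW.mn TH966.AK.Hex.A n F := by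
  unfold mean Q215.SAW.mn
  rw [walks_eq]

theorem mom_eq (q : ℝ) (n i m : ℕ) :
    mom q n i m = Q215.SAW.mom TH966.AK.Hex.A Q215.SAW.hexPos q n i m := by
  unfold mom
  rw [mean_eq]
  rfl

/-- **Theorem** (honeycomb self-avoiding walk).
(1) There is `K` such that for `n = i + m + j`, `i, j ≥ 1`: the laws of the stretches
`[i, i + m]` and `[i + 4, i + m + 4]` of the `(n + 4)`-step walk differ by at most
`K log n (1/√i + 1/√j)` in total variation, and the laws of the stretch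
`[i, i + m]` of the walks with `n + 4` and `n` steps by at most `K log n / √j`.
(2) There is `δ > 0` and for each order `q ≥ 0` a `K` such that for `n = i + m + j ≥ 2`, `m ≥ 1`
the moment `E_n |ω(i + m) - ω(i)| ^ q` is at least `1` and its ratio to the one for the parameters
`(i + 4, m, j)` is within `K log n / √i` of `1` if `log² n ≤ δ i`, to the one for
`(i, m + 4, j)` within `K log n / √m` of `1` if `log² n ≤ δ m`, and to the one for
`(i, m, j + 4)` within `K log n / √j` of `1` if `log² n ≤ δ j`. -/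
theorem result :
    (∃ K : ℝ, ∀ i m j n : ℕ, n = i + m + j → 1 ≤ i → 1 ≤ j →
      ∀ G : (Fin (m + 1) → ℤ × ℤ) → ℝ, (∀ o, 0 ≤ G o) → (∀ o, G o ≤ 1) →
      |mean (n + 4) (fun ω => G (stretch (i + 4) m ω)) -
          mean (n + 4) (fun ω => G (stretch i m ω))| ≤
        K * Real.log n * (1 / √i + 1 / √j) ∧
      |mean (n + 4) (fun ω => G (stretch i m ω)) - mean n (fun ω => G (stretch i m ω))| ≤
        K * Real.log n / √j) ∧
    (∃ δ : ℝ, 0 < δ ∧ ∀ q : ℝ, 0 ≤ q → ∃ K : ℝ, ∀ i m j n : ℕ, n = i + m + j → 2 ≤ n → 1 ≤ m →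
      1 ≤ mom q n i m ∧
      (Real.log n ^ 2 ≤ δ * i → |mom q (n + 4) (i + 4) m / mom q n i m - 1| ≤
        K * Real.log n / √i) ∧
      (Real.log n ^ 2 ≤ δ * m → |mom q (n + 4) i (m + 4) / mom q n i m - 1| ≤
        K * Real.log n / √m) ∧
      (Real.log n ^ 2 ≤ δ * j → |mom q (n + 4) i m / mom q n i m - 1| ≤
        K * Real.log n / √j)) := by
  obtain ⟨K₀, hN⟩ := Q215.SAW.hex4_nice
  have hs : Q215.SAW.Hex4.rule.s = 4 := rfl
  constructor
  · obtain ⟨R, -, h⟩ := Q215.SAW.sub_tv2 hN.gr hN.sh Q215.SAW.hexV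
    refine ⟨R, fun i m j n hn hi hj G hG0 hG1 => ?_⟩
    have h1 := h i m j n hn hi hj G hG0 hG1
    rw [hs] at h1
    simp only [mean_eq]
    exact h1
  · obtain ⟨δ, hδ, h⟩ := Q215.SAW.sub_mom hN.gr hN.sh Q215.SAW.hexV Q215.SAW.hexPos_ok
    refine ⟨δ, hδ, fun q hq => ?_⟩
    obtain ⟨R, -, h2⟩ := h q hq
    refine ⟨R, fun i m j n hn hn2 hm => ?_⟩
    have h1 := h2 i m j n hn hn2 hm
    rw [hs] at h1
    simp only [mom_eq, mul_div_assoc]
    exact h1

end Pool.Agent.Results.MP_b440f6_pr.StretchRegularity
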