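import Pool.Agent.Q215.SAW.Lat

/-!
Self-avoiding walks on the honeycomb lattice (brick-wall coordinates, same description as in the
frozen statement): the numbers `c_N(D, H)` of the `N`-step walks which stay in an arbitrary set `D`
and whose part outside a given window of `L` steps belongs to an arbitrary set `H`.  Their growth
under the insertion of four steps, uniformly in `D` and `H`, and the effect on the law outside the
window.
-/

set_option autoImplicit false

namespace Pool.Agent.Results.MP_b440f6_pr.WindowInsensitivity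

/-- Adjacency in the honeycomb lattice (brick-wall model), as in the frozen statement. -/
def Adj (p q : ℤ × ℤ) : Prop :=
  (p.2 = q.2 ∧ (p.1 - q.1 = 1 ∨ q.1 - p.1 = 1)) ∨
    (p.1 = q.1 ∧ ((q.2 = p.2 + 1 ∧ Even (p.1 + p.2)) ∨ (p.2 = q.2 + 1 ∧ Even (q.1 + q.2))))

/-- `ω` is an `n`-step self-avoiding walk started at the origin. -/
def IsWalk (n : ℕ) (ω : Fin (n + 1) → ℤ × ℤ) : Prop :=
  ω 0 = 0 ∧ Function.Injective ω ∧ ∀ i : Fin n, Adj (ω i.castSucc) (ω i.succ)

/-- the connective constant -/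
noncomputable def mu : ℝ := √(2 + √2)

/-- pairs of a path with `a + 1` sites and a path with `m + 1` sites -/
abbrev Pairs (a m : ℕ) := (Fin (a + 1) → ℤ × ℤ) × (Fin (m + 1) → ℤ × ℤ)

/-- The first `a + 1` sites `ω(0), …, ω(a)` and the last `m + 1` sites `ω(n-m), …, ω(n)` of a path
with `n` steps (used for `n ≥ a + m`): the path outside the window of times between `a` and
`n - m`. -/
def outer (a m : ℕ) {n : ℕ} (ω : Fin (n + 1) → ℤ × ℤ) : Pairs a m :=
  (fun i => ω (Fin.ofNat (n + 1) i), fun j => ω (Fin.ofNat (n + 1) (n - m + j)))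

/-- the `n`-step self-avoiding walks which stay in `D` and whose outer part is in `H` -/
def walks (D : Set (ℤ × ℤ)) {a m : ℕ} (H : Set (Pairs a m)) (n : ℕ) :
    Set (Fin (n + 1) → ℤ × ℤ) :=
  {ω | IsWalk n ω ∧ (∀ i, ω i ∈ D) ∧ outer a m ω ∈ H}

/-- their number -/
noncomputable def num (D : Set (ℤ × ℤ)) {a m : ℕ} (H : Set (Pairs a m)) (n : ℕ) : ℝ :=
  ((walks D H n).ncard : ℝ)

/-- the probability of this event under the uniform law on the `n`-step self-avoiding walks -/
noncomputable def prob (D : Set (ℤ × ℤ)) {a m : ℕ} (H : Set (Pairs a m)) (n : ℕ) : ℝ :=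
  num D H n / ({ω | IsWalk n ω}.ncard : ℝ)

/-- the conditional mean of `G(outer part)` given this event -/
noncomputable def mean (D : Set (ℤ × ℤ)) {a m : ℕ} (H : Set (Pairs a m)) (n : ℕ)
    (G : Pairs a m → ℝ) : ℝ :=
  (∑ᶠ ω ∈ walks D H n, G (outer a m ω)) / num D H n

theorem adj_eq : Adj = TH966.AK.Hex.A := by
  funext p q
  refine propext ?_
  rw [TH966.AK.Hex.A_iff]
  unfold Adj
  rw [Int.even_iff, Int.even_iff]
  omega

theorem mu_eq : mu = Q215.SAW.muu TH966.AK.Hex.A := Q215.SAW.hex_mu'.symm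

theorem prob_eq (D : Set (ℤ × ℤ)) {a m : ℕ} (H : Set (Pairs a m)) (n : ℕ) :
    prob D H n = Q219.SAW.prF Adj D H n := rfl

theorem mean_eq (D : Set (ℤ × ℤ)) {a m : ℕ} (H : Set (Pairs a m)) (n : ℕ)
    (G : Pairs a m → ℝ) : mean D H n G = Q219.SAW.mnF Adj D H n G := rfl

theorem num_eq (D : Set (ℤ × ℤ)) {a m : ℕ} (H : Set (Pairs a m)) (n : ℕ) :
    num D H n = ((Q219.SAW.WK Adj D H n).ncard : ℝ) := rfl

/-- **Theorem.** There are `R, δ > 0` with the following property. Let `N = a + L + m ≥ 2`, let `D`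
be any set of sites, and let `H` be any set of outer parts (first `a + 1` and last `m + 1` sites).
Let `p` be the probability that the uniform `N`-step walk stays in `D` and has its outer part in
`H`, and suppose that `p > 0` and `log² N + log (1/p) ≤ δ L`. Put
`ε = R ((log² N + log (1/p)) / L)^(1/2)`. Then the number of walks of this kind is multiplied by
`mu ^ 4 (1 ± ε)` under `N ↦ N + 4` (window `L ↦ L + 4`), its quotient by the number of all
walks by `1 ± ε`, and the conditional means of all functions `0 ≤ G ≤ 1` of the outer part satisfy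
`|E_{N + 4}[G | D, H] - E_N[G | D, H]| ≤ ε E_N[G | D, H] + p exp (- log² N)`. -/
theorem result : ∃ R δ : ℝ, 0 < R ∧ 0 < δ ∧ ∀ (a L m : ℕ) (D : Set (ℤ × ℤ))
    (H : Set (Pairs a m)), 2 ≤ a + L + m → 0 < prob D H (a + L + m) →
    Real.log (a + L + m : ℕ) ^ 2 + Real.log (1 / prob D H (a + L + m)) ≤ δ * L →
    |num D H (a + L + m + 4) / num D H (a + L + m) / mu ^ 4 - 1| ≤ R *
      √((Real.log (a + L + m : ℕ) ^ 2 + Real.log (1 / prob D H (a + L + m))) / L) ∧
    |prob D H (a + L + m + 4) / prob D H (a + L + m) - 1| ≤ R *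
      √((Real.log (a + L + m : ℕ) ^ 2 + Real.log (1 / prob D H (a + L + m))) / L) ∧
    ∀ G : Pairs a m → ℝ, (∀ o, 0 ≤ G o) → (∀ o, G o ≤ 1) →
    |mean D H (a + L + m + 4) G - mean D H (a + L + m) G| ≤
      R * √((Real.log (a + L + m : ℕ) ^ 2 + Real.log (1 / prob D H (a + L + m))) / L) *
        mean D H (a + L + m) G +
      prob D H (a + L + m) * Real.exp (-(Real.log (a + L + m : ℕ) ^ 2)) := by
  obtain ⟨K₀, hN⟩ := Q215.SAW.hex4_nice
  obtain ⟨R, δ, hR, hδ, h⟩ := Q215.SAW.window_fn hN.gr hN.sh Q215.SAW.hexV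
  refine ⟨R, δ, hR, hδ, ?_⟩
  intro a L m D H h1 h2 h3
  simp only [prob_eq, mean_eq, num_eq, mu_eq, adj_eq] at h2 h3 ⊢
  have h4 := h a L m D H h1 h2 h3
  have hs : Q215.SAW.Hex4.rule.s = 4 := rfl
  rw [hs] at h4
  exact ⟨h4.2.2.1, h4.2.1, h4.2.2.2⟩

end Pool.Agent.Results.MP_b440f6_pr.WindowInsensitivity
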